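import Pool.Agent.Y766.R9.Stm
import Pool.Agent.Helper112.Arith

/-!
# Project R9: the Fejér kernels at `log n` are small on average
-/

set_option autoImplicit false

namespace Pool.Agent.Y275.R9

open Finset Pool.Agent.Y766.R9

/-! ### The Fejér kernel -/

/-- the geometric sum of `L` unit vectors -/
noncomputable def gs (L : ℕ) (x : ℝ) : ℂ :=
  ∑ j ∈ range L, Complex.exp (((j * x : ℝ) : ℂ) * Complex.I)

theorem gs_le (L : ℕ) (x : ℝ) : ‖gs L x‖ ≤ L := by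
  unfold gs
  refine (norm_sum_le _ _).trans ?_
  simp only [Complex.norm_exp_ofReal_mul_I, sum_const, card_range, nsmul_eq_mul, mul_one]
  exact le_rfl

theorem gs_add (L : ℕ) (x : ℝ) (z : ℤ) : gs L (x + 2 * Real.pi * z) = gs L x := by
  unfold gs
  refine sum_congr rfl fun j _ => ?_
  have : (((j * (x + 2 * Real.pi * z) : ℝ) : ℂ) * Complex.I) =
      ((j * x : ℝ) : ℂ) * Complex.I + ((j * z : ℤ) : ℂ) * (2 * Real.pi * Complex.I) := by
    push_cast
    ring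
  rw [this, Complex.exp_add, Complex.exp_int_mul_two_pi_mul_I, mul_one]

theorem gs_mul (L : ℕ) (x : ℝ) : gs L x * (Complex.exp ((x : ℂ) * Complex.I) - 1) =
    Complex.exp (((L * x : ℝ) : ℂ) * Complex.I) - 1 := by
  have h1 : gs L x = ∑ j ∈ range L, Complex.exp ((x : ℂ) * Complex.I) ^ j := by
    unfold gs
    refine sum_congr rfl fun j _ => ?_
    rw [← Complex.exp_nat_mul]
    congr 1
    push_cast
    ring
  rw [h1, geom_sum_mul, ← Complex.exp_nat_mul]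
  congr 2
  push_cast
  ring

theorem norm_exp_sub_one_ge {x : ℝ} (hx : |x| ≤ Real.pi) :
    2 * |x| / Real.pi ≤ ‖Complex.exp ((x : ℂ) * Complex.I) - 1‖ := by
  have h1 : ‖Complex.exp ((x : ℂ) * Complex.I) - 1‖ = 2 * |Real.sin (x / 2)| := by
    have := Complex.norm_exp_I_mul_ofReal_sub_one x
    rw [mul_comm] at this
    rw [this, norm_mul, Real.norm_eq_abs, Real.norm_eq_abs]
    norm_num
  rw [h1]
  have h2 : 2 / Real.pi * |x / 2| ≤ |Real.sin (x / 2)| := by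
    apply Real.mul_abs_le_abs_sin
    rw [abs_div]
    norm_num
    linarith
  rw [abs_div] at h2
  have h3 : |(2 : ℝ)| = 2 := by norm_num
  rw [h3] at h2
  have h4 : 2 * |x| / Real.pi = 2 * (2 / Real.pi * (|x| / 2)) := by ring
  rw [h4]
  linarith

theorem gs_bound {L : ℕ} {x : ℝ} (hx : |x| ≤ Real.pi) : ‖gs L x‖ * |x| ≤ Real.pi := by
  have h1 := norm_exp_sub_one_ge hx
  have h2 : ‖gs L x‖ * ‖Complex.exp ((x : ℂ) * Complex.I) - 1‖ ≤ 2 := by
    rw [← norm_mul, gs_mul]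
    refine (norm_sub_le _ _).trans ?_
    rw [Complex.norm_exp_ofReal_mul_I, norm_one]
    norm_num
  have h3 : ‖gs L x‖ * (2 * |x| / Real.pi) ≤ 2 :=
    (mul_le_mul_of_nonneg_left h1 (norm_nonneg _)).trans h2
  have hpi := Real.pi_pos
  rw [mul_div_assoc', div_le_iff₀ hpi] at h3
  linarith

/-- majorant of one kernel -/
theorem fejer_le {L M : ℕ} (hL : 1 ≤ L) (hM : L ≤ 2 ^ M) (x : ℝ) :
    ∃ b ∈ range (M + 1), (∃ z : ℤ, |x - 2 * Real.pi * z| ≤ 2 * Real.pi * (2 : ℝ) ^ b / L) ∧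
      ‖gs L x‖ ^ 2 / (L : ℝ) ≤ L * (1 / 4 : ℝ) ^ b := by
  have hpi := Real.pi_pos
  have hL0 : (1 : ℝ) ≤ L := by exact_mod_cast hL
  obtain ⟨z, hz⟩ : ∃ z : ℤ, |x - 2 * Real.pi * z| ≤ Real.pi := by
    refine ⟨round (x / (2 * Real.pi)), ?_⟩
    have h1 := abs_sub_round (x / (2 * Real.pi))
    have h2 : x - 2 * Real.pi * (round (x / (2 * Real.pi)) : ℤ) =
        2 * Real.pi * (x / (2 * Real.pi) - (round (x / (2 * Real.pi)) : ℤ)) := by
      field_simp
    rw [h2, abs_mul, abs_of_pos (by positivity)]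
    nlinarith
  obtain ⟨θ, hθ⟩ : ∃ θ : ℝ, θ = x - 2 * Real.pi * z := ⟨_, rfl⟩
  have hgs : gs L x = gs L θ := by
    have h1 : x = θ + 2 * Real.pi * z := by rw [hθ]; ring
    rw [h1, gs_add]
  rw [← hθ] at hz
  have hex : ∃ b : ℕ, |θ| ≤ 2 * Real.pi * (2 : ℝ) ^ b / L := by
    refine ⟨M, ?_⟩
    rw [le_div_iff₀ (by linarith)]
    have h1 : (L : ℝ) ≤ 2 ^ M := by exact_mod_cast hM
    calc |θ| * L ≤ Real.pi * 2 ^ M := mul_le_mul hz h1 (by linarith) hpi.le
      _ ≤ 2 * Real.pi * (2 : ℝ) ^ M := by nlinarith [pow_pos (show (0 : ℝ) < 2 by norm_num) M]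
  classical
  have hM' : |θ| ≤ 2 * Real.pi * (2 : ℝ) ^ M / L := by
    rw [le_div_iff₀ (by linarith)]
    have h1 : (L : ℝ) ≤ 2 ^ M := by exact_mod_cast hM
    calc |θ| * L ≤ Real.pi * 2 ^ M := mul_le_mul hz h1 (by linarith) hpi.le
      _ ≤ 2 * Real.pi * (2 : ℝ) ^ M := by nlinarith [pow_pos (show (0 : ℝ) < 2 by norm_num) M]
  obtain ⟨b, hb⟩ : ∃ b, b = Nat.find hex := ⟨_, rfl⟩
  have hb1 : |θ| ≤ 2 * Real.pi * (2 : ℝ) ^ b / L := by rw [hb]; exact Nat.find_spec hex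
  have hb2 : b ≤ M := by rw [hb]; exact Nat.find_min' hex hM'
  refine ⟨b, mem_range.2 (by omega), ⟨z, by rw [← hθ]; exact hb1⟩, ?_⟩
  rw [hgs]
  rcases Nat.eq_zero_or_pos b with h0 | hpos
  · rw [h0, pow_zero, mul_one, div_le_iff₀ (by linarith), sq]
    exact mul_le_mul (gs_le L θ) (gs_le L θ) (norm_nonneg _) (by linarith)
  · have hb3 : 2 * Real.pi * (2 : ℝ) ^ (b - 1) / L < |θ| := by
      have := Nat.find_min hex (m := b - 1) (by rw [← hb]; omega)
      exact not_le.1 this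
    have hθ0 : 0 < |θ| := lt_of_le_of_lt (by positivity) hb3
    have h1 := gs_bound (L := L) hz
    have h2 : (2 : ℝ) ^ b = 2 * 2 ^ (b - 1) := by
      rw [← pow_succ']
      congr 1
      omega
    have h3 : Real.pi * 2 ^ b / L < |θ| := by
      rw [h2]
      calc Real.pi * (2 * 2 ^ (b - 1)) / L = 2 * Real.pi * (2 : ℝ) ^ (b - 1) / L := by ring
        _ < _ := hb3
    have h4 : ‖gs L θ‖ * (Real.pi * 2 ^ b / L) ≤ Real.pi :=
      (mul_le_mul_of_nonneg_left h3.le (norm_nonneg _)).trans h1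
    have h5 : ‖gs L θ‖ * 2 ^ b ≤ L := by
      have h6 : ‖gs L θ‖ * (Real.pi * 2 ^ b / L) = Real.pi * (‖gs L θ‖ * 2 ^ b / L) := by ring
      rw [h6] at h4
      have h7 : ‖gs L θ‖ * 2 ^ b / L ≤ 1 := by
        by_contra hcon
        push Not at hcon
        nlinarith
      rwa [div_le_one (by linarith)] at h7
    rw [div_le_iff₀ (by linarith)]
    have h8 : (4 : ℝ) ^ b = (2 ^ b) ^ 2 := by
      rw [← pow_mul, mul_comm, pow_mul]
      norm_num
    have h9 : (1 / 4 : ℝ) ^ b = 1 / (2 ^ b) ^ 2 := by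
      rw [div_pow, one_pow, h8]
    rw [h9]
    have h10 : (‖gs L θ‖ * 2 ^ b) ^ 2 ≤ (L : ℝ) ^ 2 := by
      gcongr
    rw [mul_pow] at h10
    have h11 : (L : ℝ) * (1 / (2 ^ b) ^ 2) * L = (L : ℝ) ^ 2 / (2 ^ b) ^ 2 := by ring
    rw [h11, le_div_iff₀ (by positivity)]
    exact h10

open Classical in
/-- majorant of the product of the kernels -/
theorem WF_le {k M : ℕ} (Δ : Fin k → ℝ) (L : Fin k → ℕ) (hL : ∀ i, 1 ≤ L i)
    (hM : ∀ i, L i ≤ 2 ^ M) (n : ℕ) :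
    WF Δ L n ≤ (∏ i, (L i : ℝ)) * ∑ b ∈ Fintype.piFinset fun _ : Fin k => range (M + 1),
      (1 / 4 : ℝ) ^ (∑ i, b i) * (if InB Δ L b n then 1 else 0) := by
  choose b hb1 hb2 hb3 using fun i => fejer_le (hL i) (hM i) (Δ i * Real.log n)
  have h1 : WF Δ L n ≤ ∏ i, ((L i : ℝ) * (1 / 4 : ℝ) ^ (b i)) := by
    unfold WF
    refine prod_le_prod (fun i _ => by positivity) fun i _ => ?_
    exact hb3 i
  refine h1.trans ?_
  rw [prod_mul_distrib]
  refine mul_le_mul_of_nonneg_left ?_ (prod_nonneg fun i _ => Nat.cast_nonneg _)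
  have h2 : ∏ i, (1 / 4 : ℝ) ^ (b i) = (1 / 4 : ℝ) ^ (∑ i, b i) * (if InB Δ L b n then 1 else 0) := by
    rw [prod_pow_eq_pow_sum, if_pos (show InB Δ L b n from hb2), mul_one]
  rw [h2]
  refine single_le_sum (f := fun b : Fin k → ℕ =>
    (1 / 4 : ℝ) ^ (∑ i, b i) * (if InB Δ L b n then (1 : ℝ) else 0)) (fun b _ => ?_)
    (Fintype.mem_piFinset.2 hb1)
  split_ifs <;> positivity

/-! ### Products of elements of the Bohr set -/

theorem InB_mono {k : ℕ} {Δ : Fin k → ℝ} {L b : Fin k → ℕ} {j c : ℕ} (hj : j ≤ 2 ^ c)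
    {f : Fin j → ℕ} (hf0 : ∀ l, f l ≠ 0) (hf : ∀ l, InB Δ L b (f l)) :
    InB Δ L (fun i => b i + c) (∏ l, f l) := by
  intro i
  choose z hz using fun l => hf l i
  refine ⟨∑ l, z l, ?_⟩
  have h1 : Real.log ((∏ l, f l : ℕ) : ℝ) = ∑ l, Real.log (f l) := by
    push_cast
    exact Real.log_prod fun l _ => by exact_mod_cast hf0 l
  have h2 : Δ i * Real.log ((∏ l, f l : ℕ) : ℝ) - 2 * Real.pi * ((∑ l, z l : ℤ) : ℝ) =
      ∑ l, (Δ i * Real.log (f l) - 2 * Real.pi * z l) := by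
    rw [h1]
    push_cast
    rw [sum_sub_distrib, mul_sum, mul_sum]
  rw [h2]
  refine (abs_sum_le_sum_abs _ _).trans ?_
  refine (sum_le_sum fun l _ => hz l).trans ?_
  rw [sum_const, card_univ, Fintype.card_fin, nsmul_eq_mul]
  have h3 : (j : ℝ) ≤ 2 ^ c := by exact_mod_cast hj
  have hpi := Real.pi_pos
  calc (j : ℝ) * (2 * Real.pi * 2 ^ b i / L i) ≤ 2 ^ c * (2 * Real.pi * 2 ^ b i / L i) := by
        gcongr
    _ = 2 * Real.pi * 2 ^ (b i + c) / L i := by rw [pow_add]; ring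

open Classical in
/-- number of elements of the Bohr set -/
noncomputable def NB {k : ℕ} (Δ : Fin k → ℝ) (L b : Fin k → ℕ) (K : ℕ) : ℕ :=
  ((Ioc K (2 * K)).filter (fun n => InB Δ L b n)).card

theorem NB_le_self {k : ℕ} (Δ : Fin k → ℝ) (L b : Fin k → ℕ) (K : ℕ) : NB Δ L b K ≤ K := by
  classical
  unfold NB
  refine (card_filter_le _ _).trans ?_
  rw [Nat.card_Ioc]
  omega

theorem dyadic_cover {X j n : ℕ} (h1 : X < n) (h2 : n ≤ 2 ^ j * X) :
    ∃ i ∈ range j, n ∈ Ioc (2 ^ i * X) (2 * (2 ^ i * X)) := by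
  induction j with
  | zero => rw [pow_zero, one_mul] at h2; omega
  | succ j ih =>
    by_cases h : n ≤ 2 ^ j * X
    · obtain ⟨i, hi, hn⟩ := ih h
      exact ⟨i, mem_range.2 (by have := mem_range.1 hi; omega), hn⟩
    · refine ⟨j, mem_range.2 (by omega), ?_⟩
      rw [mem_Ioc]
      rw [pow_succ] at h2
      constructor
      · omega
      · linarith

/-- products of `j` elements -/
theorem NB_pow {k : ℕ} (Δ : Fin k → ℝ) (L b : Fin k → ℕ) (K j c D : ℕ) (hj1 : 1 ≤ j)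
    (hj : j ≤ 2 ^ c) (hD : ∀ n, 1 ≤ n → n ≤ 2 ^ j * K ^ j → n.divisors.card ≤ D) :
    NB Δ L b K ^ j ≤ D ^ j * ∑ i ∈ range j, NB Δ L (fun l => b l + c) (2 ^ i * K ^ j) := by
  classical
  obtain ⟨S, hS⟩ : ∃ S : Finset ℕ, S = (Ioc K (2 * K)).filter (fun n => InB Δ L b n) := ⟨_, rfl⟩
  have hN : NB Δ L b K = S.card := by
    rw [hS]
    unfold NB
    congr
  obtain ⟨T, hT⟩ : ∃ T : Finset ℕ, T = (range j).biUnion fun i =>
    (Ioc (2 ^ i * K ^ j) (2 * (2 ^ i * K ^ j))).filter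
      (fun n => InB Δ L (fun l => b l + c) n) := ⟨_, rfl⟩
  have hTc : T.card ≤ ∑ i ∈ range j, NB Δ L (fun l => b l + c) (2 ^ i * K ^ j) := by
    rw [hT]
    refine card_biUnion_le.trans (sum_le_sum fun i _ => ?_)
    unfold NB
    apply le_of_eq
    congr
  have h1 : NB Δ L b K ^ j = (Fintype.piFinset fun _ : Fin j => S).card := by
    rw [Fintype.card_piFinset, prod_const, card_univ, Fintype.card_fin, hN]
  have hTb : ∀ n ∈ T, 1 ≤ n ∧ n ≤ 2 ^ j * K ^ j := by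
    intro n hn
    rw [hT, mem_biUnion] at hn
    obtain ⟨i, hi, hn⟩ := hn
    rw [mem_filter, mem_Ioc] at hn
    refine ⟨by omega, hn.1.2.trans ?_⟩
    rw [← mul_assoc, ← pow_succ']
    exact Nat.mul_le_mul_right _ (Nat.pow_le_pow_right (by norm_num) (by
      have := mem_range.1 hi; omega))
  have hmem : ∀ f ∈ (Fintype.piFinset fun _ : Fin j => S), ∏ i, f i ∈ T := by
    intro f hf
    rw [Fintype.mem_piFinset] at hf
    simp only [hS, mem_filter, mem_Ioc] at hf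
    have h2 : K ^ j < ∏ i, f i := by
      rcases Nat.eq_zero_or_pos K with hK | hK
      · have h3 := (hf ⟨0, by omega⟩).1
        omega
      · calc K ^ j = ∏ _i : Fin j, K := by rw [prod_const, card_univ, Fintype.card_fin]
          _ < ∏ i, f i := by
              refine prod_lt_prod (fun i _ => hK) (fun i _ => (hf i).1.1.le)
                ⟨⟨0, by omega⟩, mem_univ _, (hf _).1.1⟩
    have h3 : ∏ i, f i ≤ 2 ^ j * K ^ j := by
      calc ∏ i, f i ≤ ∏ _i : Fin j, (2 * K) := prod_le_prod' fun i _ => (hf i).1.2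
        _ = 2 ^ j * K ^ j := by rw [prod_const, card_univ, Fintype.card_fin, mul_pow]
    obtain ⟨i, hi, hin⟩ := dyadic_cover h2 h3
    rw [hT, mem_biUnion]
    refine ⟨i, hi, ?_⟩
    rw [mem_filter]
    exact ⟨hin, InB_mono hj (fun l => by have := (hf l).1.1; omega) (fun l => (hf l).2)⟩
  have hfib : ∀ n ∈ T, ((Fintype.piFinset fun _ : Fin j => S).filter
      fun f => ∏ i, f i = n).card ≤ D ^ j := by
    intro n hn
    obtain ⟨hn1, hn2⟩ := hTb n hn
    have h2 : ((Fintype.piFinset fun _ : Fin j => S).filter fun f => ∏ i, f i = n) ⊆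
        Fintype.piFinset fun _ : Fin j => n.divisors := by
      intro f hf
      rw [mem_filter] at hf
      rw [Fintype.mem_piFinset]
      intro i
      rw [Nat.mem_divisors]
      refine ⟨?_, by omega⟩
      rw [← hf.2]
      exact dvd_prod_of_mem f (mem_univ i)
    refine (card_le_card h2).trans ?_
    rw [Fintype.card_piFinset, prod_const, card_univ, Fintype.card_fin]
    exact Nat.pow_le_pow_left (hD n hn1 hn2) j
  rw [h1]
  calc (Fintype.piFinset fun _ : Fin j => S).card ≤ D ^ j * T.card :=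
        card_le_mul_card_image_of_maps_to hmem (D ^ j) hfib
    _ ≤ D ^ j * ∑ i ∈ range j, NB Δ L (fun l => b l + c) (2 ^ i * K ^ j) :=
        Nat.mul_le_mul_left _ hTc

/-! ### The size of the progression -/

theorem card_sep {F : Finset ℝ} {D : ℝ} (hD : 0 ≤ D)
    (h : ∀ t ∈ F, ∀ u ∈ F, t ≠ u → 1 ≤ |t - u| ∧ |t - u| ≤ D) : (F.card : ℝ) ≤ D + 1 := by
  rcases F.eq_empty_or_nonempty with rfl | hF
  · simp
    linarith
  obtain ⟨m, hm⟩ : ∃ m, m = F.min' hF := ⟨_, rfl⟩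
  have hmF : m ∈ F := by rw [hm]; exact F.min'_mem hF
  have hmin : ∀ t ∈ F, m ≤ t := by
    intro t ht
    rw [hm]
    exact F.min'_le t ht
  have h1 : F.card ≤ (range (⌊D⌋₊ + 1)).card := by
    refine card_le_card_of_injOn (fun t => ⌊t - m⌋₊) ?_ ?_
    · intro t ht
      simp only [coe_range, Set.mem_Iio]
      apply Nat.lt_succ_of_le
      apply Nat.floor_le_floor
      by_cases htm : t = m
      · rw [htm, sub_self]; exact hD
      · exact (le_abs_self _).trans (h t ht m hmF htm).2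
    · intro t ht u hu htu
      by_contra hne
      have h2 := (h t ht u hu hne).1
      have h3 := Nat.floor_le (sub_nonneg.2 (hmin t ht))
      have h4 := Nat.lt_floor_add_one (t - m)
      have h5 := Nat.floor_le (sub_nonneg.2 (hmin u hu))
      have h6 := Nat.lt_floor_add_one (u - m)
      simp only at htu
      rw [htu] at h3 h4
      have h7 : |t - u| < 1 := by
        rw [abs_lt]
        constructor <;> linarith
      linarith
  rw [card_range] at h1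
  have h2 : (F.card : ℝ) ≤ ((⌊D⌋₊ + 1 : ℕ) : ℝ) := by exact_mod_cast h1
  push_cast at h2
  have h3 := Nat.floor_le hD
  linarith

theorem prod_le_D {k : ℕ} {Δ : Fin k → ℝ} {L : Fin k → ℕ} {D : ℝ} (hD : 1 ≤ D)
    (h : SepZ Δ L D) : ∏ i, (L i : ℝ) ≤ 2 * D := by
  classical
  have key : ∀ f ∈ Fintype.piFinset (fun i => range (L i)),
      ∀ g ∈ Fintype.piFinset (fun i => range (L i)), f ≠ g →
      1 ≤ |∑ i, (f i : ℝ) * Δ i - ∑ i, (g i : ℝ) * Δ i| ∧
        |∑ i, (f i : ℝ) * Δ i - ∑ i, (g i : ℝ) * Δ i| ≤ D := by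
    intro f hf g hg hfg
    rw [Fintype.mem_piFinset] at hf hg
    have h1 := h (fun i => (f i : ℤ) - (g i : ℤ)) (fun i => by
      have h2 := mem_range.1 (hf i)
      have h3 := mem_range.1 (hg i)
      rw [abs_lt]
      constructor <;> omega) (fun h0 => hfg (by
      funext i
      have h4 := congrFun h0 i
      simp only [Pi.zero_apply] at h4
      omega))
    have h5 : ∑ i, (((f i : ℤ) - (g i : ℤ) : ℤ) : ℝ) * Δ i =
        ∑ i, (f i : ℝ) * Δ i - ∑ i, (g i : ℝ) * Δ i := by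
      rw [← sum_sub_distrib]
      refine sum_congr rfl fun i _ => ?_
      push_cast
      ring
    rw [h5] at h1
    exact h1
  have hinj : Set.InjOn (fun f : Fin k → ℕ => ∑ i, (f i : ℝ) * Δ i)
      (Fintype.piFinset (fun i => range (L i)) : Set (Fin k → ℕ)) := by
    intro f hf g hg hfg
    by_contra hne
    have h1 := (key f (mem_coe.1 hf) g (mem_coe.1 hg) hne).1
    simp only at hfg
    rw [hfg, sub_self, abs_zero] at h1
    linarith
  have h1 : (((Fintype.piFinset (fun i => range (L i))).image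
      (fun f : Fin k → ℕ => ∑ i, (f i : ℝ) * Δ i)).card : ℝ) ≤ D + 1 := by
    apply card_sep (by linarith)
    intro t ht u hu htu
    rw [mem_image] at ht hu
    obtain ⟨f, hf, rfl⟩ := ht
    obtain ⟨g, hg, rfl⟩ := hu
    exact key f hf g hg (fun hfg => htu (by rw [hfg]))
  rw [card_image_of_injOn hinj, Fintype.card_piFinset] at h1
  simp only [card_range] at h1
  push_cast at h1
  linarith

/-! ### The numerical part -/

/-- the final estimate -/
theorem fin_est {q h d : ℝ} {K j : ℕ} {N Dt δ a C0 : ℝ} (hq : 1 ≤ q) (hh : 1 ≤ h) (hd : 1 ≤ d)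
    (hj : 1 ≤ j) (hC0 : 0 < C0) (hD0 : 0 ≤ Dt)
    (hdh : d ^ (2 / 3 : ℝ) * q ^ δ ≤ h) (hδ : 0 < δ)
    (hKx : (K : ℝ) ^ j ≤ h ^ 2 * q ^ (-δ)) (hxK : h ^ 2 * q ^ (-δ) < (K : ℝ) ^ (j + 1))
    (hK1 : 1 ≤ K) (hja : j * a ≤ δ / 2) (hD : Dt ≤ C0 * q ^ (a / 2))
    (hmain : N ^ j ≤ (((K : ℝ) ^ j + d) / h) * Dt ^ j) :
    N ≤ (2 * C0) * (K : ℝ) ^ (1 / 2 : ℝ) * q ^ (-(a / 2)) := by
  have hq0 : (0 : ℝ) < q := by linarith
  have hh0 : (0 : ℝ) < h := by linarith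
  have hd0 : (0 : ℝ) < d := by linarith
  have hK0 : (1 : ℝ) ≤ K := by exact_mod_cast hK1
  obtain ⟨w, hw⟩ : ∃ w : ℝ, w = q ^ (-(δ / 2)) := ⟨_, rfl⟩
  have hw0 : 0 < w := by rw [hw]; positivity
  have hw2 : w ^ 2 = q ^ (-δ) := by
    rw [hw, ← Real.rpow_natCast, ← Real.rpow_mul hq0.le]
    congr 1
    push_cast
    ring
  obtain ⟨s, hs⟩ : ∃ s : ℝ, s = ((K : ℝ) ^ (1 / 2 : ℝ)) ^ j := ⟨_, rfl⟩
  have hs0 : 0 < s := by rw [hs]; positivity
  have hs2 : s ^ 2 = (K : ℝ) ^ j := by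
    rw [hs, ← pow_mul, mul_comm, pow_mul, ← Real.rpow_natCast ((K : ℝ) ^ (1 / 2 : ℝ)) 2,
      ← Real.rpow_mul (by positivity)]
    norm_num
  obtain ⟨r, hr⟩ : ∃ r : ℝ, r = (q ^ (-a)) ^ j := ⟨_, rfl⟩
  have hr0 : 0 < r := by rw [hr]; positivity
  have hwr : w ≤ r := by
    rw [hw, hr, ← Real.rpow_natCast, ← Real.rpow_mul hq0.le]
    refine Real.rpow_le_rpow_of_exponent_le hq ?_
    linarith
  have hw1 : w ≤ 1 := by
    rw [hw]
    exact Real.rpow_le_one_of_one_le_of_nonpos hq (by linarith)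
  -- first term
  have h1 : s ≤ h * w := by
    refine le_of_sq_le_sq ?_ (by positivity)
    rw [hs2, mul_pow, hw2]
    exact hKx
  have h2 : (K : ℝ) ^ j ≤ h * (s * r) := by
    rw [← hs2, sq]
    calc s * s ≤ s * (h * w) := mul_le_mul_of_nonneg_left h1 hs0.le
      _ ≤ s * (h * r) := by gcongr
      _ = h * (s * r) := by ring
  -- second term
  have h3 : h * w < (K : ℝ) ^ j := by
    refine lt_of_pow_lt_pow_left₀ 2 (by positivity) ?_
    rw [mul_pow, hw2]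
    refine hxK.trans_le ?_
    rw [← pow_mul]
    exact pow_le_pow_right₀ hK0 (by omega)
  have h4 : d ^ 2 ≤ h ^ 3 * w ^ 6 := by
    have h5 : (d ^ (2 / 3 : ℝ) * q ^ δ) ^ 3 ≤ h ^ 3 := by gcongr
    have h6 : (d ^ (2 / 3 : ℝ)) ^ 3 = d ^ 2 := by
      rw [← Real.rpow_natCast, ← Real.rpow_mul hd0.le]
      norm_num
    have h7 : q ^ δ * w ^ 2 = 1 := by
      rw [hw2, ← Real.rpow_add hq0]
      simp
    rw [mul_pow, h6] at h5
    calc d ^ 2 = (d ^ 2 * (q ^ δ) ^ 3) * (w ^ 2) ^ 3 := by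
          have : (q ^ δ) ^ 3 * (w ^ 2) ^ 3 = 1 := by rw [← mul_pow, h7, one_pow]
          rw [mul_assoc, this, mul_one]
      _ ≤ h ^ 3 * (w ^ 2) ^ 3 := by gcongr
      _ = h ^ 3 * w ^ 6 := by ring
  have h8 : d ≤ h * (s * r) := by
    refine le_of_sq_le_sq ?_ (by positivity)
    calc d ^ 2 ≤ h ^ 3 * w ^ 6 := h4
      _ ≤ h ^ 3 * w ^ 3 := by
          refine mul_le_mul_of_nonneg_left ?_ (by positivity)
          exact pow_le_pow_of_le_one hw0.le hw1 (by norm_num)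
      _ = h ^ 2 * ((h * w) * w ^ 2) := by ring
      _ ≤ h ^ 2 * ((K : ℝ) ^ j * r ^ 2) := by gcongr
      _ = (h * (s * r)) ^ 2 := by rw [← hs2]; ring
  -- the sum
  have h9 : ((K : ℝ) ^ j + d) / h ≤ 2 * (s * r) := by
    rw [div_le_iff₀ hh0]
    linarith
  have h11 : N ^ j ≤ ((2 * C0) * (K : ℝ) ^ (1 / 2 : ℝ) * q ^ (-(a / 2))) ^ j := by
    calc N ^ j ≤ (((K : ℝ) ^ j + d) / h) * Dt ^ j := hmain
      _ ≤ 2 * (s * r) * (C0 * q ^ (a / 2)) ^ j := by gcongr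
      _ = 2 * (C0 * (K : ℝ) ^ (1 / 2 : ℝ) * (q ^ (-a) * q ^ (a / 2))) ^ j := by
          rw [hs, hr]
          simp only [mul_pow]
          ring
      _ = 2 * (C0 * (K : ℝ) ^ (1 / 2 : ℝ) * q ^ (-(a / 2))) ^ j := by
          rw [← Real.rpow_add hq0]
          congr 4
          ring
      _ ≤ 2 ^ j * (C0 * (K : ℝ) ^ (1 / 2 : ℝ) * q ^ (-(a / 2))) ^ j := by
          refine mul_le_mul_of_nonneg_right ?_ (by positivity)
          calc (2 : ℝ) = 2 ^ 1 := by norm_num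
            _ ≤ 2 ^ j := pow_le_pow_right₀ (by norm_num) hj
      _ = _ := by
          rw [← mul_pow]
          congr 1
          ring
  exact le_of_pow_le_pow_left₀ (by omega) (by positivity) h11

theorem NB_bound (hm : S_MEAS) (k : ℕ) (δ κ : ℝ) (hδ : 0 < δ) (hκ : 0 < κ) :
    ∃ η C : ℝ, 0 < η ∧ 0 < C ∧
    ∀ (T D : ℝ) (Δ : Fin k → ℝ) (L : Fin k → ℕ), 1 ≤ D → D ≤ T → (∀ i, 1 ≤ L i) → SepZ Δ L D →
    D ^ (2 / 3 : ℝ) * T ^ δ ≤ ∏ i, (L i : ℝ) →
    ∀ K : ℕ, T ^ κ ≤ K → (K : ℝ) ≤ (∏ i, (L i : ℝ)) ^ 2 * T ^ (-δ) → ∀ b : Fin k → ℕ,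
      (NB Δ L b K : ℝ) ≤ C * 2 ^ (∑ i, b i) * (K : ℝ) ^ (1 / 2 : ℝ) * T ^ (-η) := by
  obtain ⟨J, hJ⟩ : ∃ J : ℕ, J = ⌈2 + 2 / κ⌉₊ := ⟨_, rfl⟩
  have hJ1 : 2 + 2 / κ ≤ J := by rw [hJ]; exact Nat.le_ceil _
  have hJ0 : (0 : ℝ) < J := lt_of_lt_of_le (by positivity) hJ1
  obtain ⟨a, ha⟩ : ∃ a : ℝ, a = δ / (2 * J) := ⟨_, rfl⟩
  have ha0 : 0 < a := by rw [ha]; positivity
  obtain ⟨C1, hC1, hdiv⟩ := Pool.Agent.Helper112.divisor_bound (a / 8) (by positivity)
  obtain ⟨Cm, hCm, hmeas⟩ := hm k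
  obtain ⟨E1, hE1⟩ : ∃ E1 : ℝ, E1 = J * 2 ^ J * (Cm + 1) * 2 ^ (k * J) * (1 + 4 / a) := ⟨_, rfl⟩
  have hE10 : 1 ≤ E1 := by
    rw [hE1]
    have h1 : (1 : ℝ) ≤ J := by
      have : (2 : ℝ) ≤ J := le_trans (by
        have : 0 < 2 / κ := by positivity
        linarith) hJ1
      linarith
    have h2 : (1 : ℝ) ≤ 2 ^ J := one_le_pow₀ (by norm_num)
    have h3 : (1 : ℝ) ≤ Cm + 1 := by linarith
    have h4 : (1 : ℝ) ≤ 2 ^ (k * J) := one_le_pow₀ (by norm_num)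
    have h5 : (1 : ℝ) ≤ 1 + 4 / a := by
      have : 0 < 4 / a := by positivity
      linarith
    exact one_le_mul_of_one_le_of_one_le (one_le_mul_of_one_le_of_one_le
      (one_le_mul_of_one_le_of_one_le (one_le_mul_of_one_le_of_one_le h1 h2) h3) h4) h5
  obtain ⟨C2, hC2⟩ : ∃ C2 : ℝ, C2 = C1 * ((2 : ℝ) ^ (J + 2)) ^ (a / 8) := ⟨_, rfl⟩
  have hC20 : 0 < C2 := by rw [hC2]; positivity
  refine ⟨a / 2, 2 * (C2 * E1) + 2, by positivity, by positivity, ?_⟩
  intro T D Δ L hD1 hDT hL hsep hDL K hK1 hK2 b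
  have hT1 : 1 ≤ T := hD1.trans hDT
  have hT0 : (0 : ℝ) < T := by linarith
  obtain ⟨h, hh⟩ : ∃ h : ℝ, h = ∏ i, (L i : ℝ) := ⟨_, rfl⟩
  have hhD : h ≤ 2 * D := by rw [hh]; exact prod_le_D hD1 hsep
  rw [← hh] at hDL hK2
  have hh1 : 1 ≤ h := le_trans (one_le_mul_of_one_le_of_one_le
    (Real.one_le_rpow hD1 (by norm_num)) (Real.one_le_rpow hT1 hδ.le)) hDL
  have hh0 : 0 < h := by linarith
  have hKr : (1 : ℝ) ≤ K := (Real.one_le_rpow hT1 hκ.le).trans hK1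
  have hKn : 1 ≤ K := by exact_mod_cast hKr
  have hTδ : T ^ (-δ) ≤ 1 := Real.rpow_le_one_of_one_le_of_nonpos hT1 (by linarith)
  have hx4 : h ^ 2 * T ^ (-δ) ≤ 4 * T ^ 2 := by
    calc h ^ 2 * T ^ (-δ) ≤ h ^ 2 * 1 := by gcongr
      _ ≤ (2 * T) ^ 2 := by
        rw [mul_one]
        have : h ≤ 2 * T := by linarith
        gcongr
      _ = 4 * T ^ 2 := by ring
  have hb1 : (1 : ℝ) ≤ 2 ^ (∑ i, b i) := one_le_pow₀ (by norm_num)
  rcases hT1.eq_or_lt with hT | hT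
  · -- `T = 1`
    rw [← hT] at hx4 hK2
    have h1 : (K : ℝ) ≤ 4 := by linarith
    have h2 : (NB Δ L b K : ℝ) ≤ K := by exact_mod_cast NB_le_self Δ L b K
    have h3 : (K : ℝ) = (K : ℝ) ^ (1 / 2 : ℝ) * (K : ℝ) ^ (1 / 2 : ℝ) := by
      rw [← Real.rpow_add (by linarith)]
      norm_num
    have h4 : (K : ℝ) ^ (1 / 2 : ℝ) ≤ 2 := by
      calc (K : ℝ) ^ (1 / 2 : ℝ) ≤ (4 : ℝ) ^ (1 / 2 : ℝ) := by gcongr
        _ = 2 := by
          rw [show (4 : ℝ) = 2 ^ (2 : ℝ) by norm_num, ← Real.rpow_mul (by norm_num)]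
          norm_num
    rw [← hT, Real.one_rpow, mul_one]
    calc (NB Δ L b K : ℝ) ≤ K := h2
      _ = (K : ℝ) ^ (1 / 2 : ℝ) * (K : ℝ) ^ (1 / 2 : ℝ) := h3
      _ ≤ 2 * (K : ℝ) ^ (1 / 2 : ℝ) := by gcongr
      _ ≤ (2 * (C2 * E1) + 2) * 2 ^ (∑ i, b i) * (K : ℝ) ^ (1 / 2 : ℝ) := by
        refine mul_le_mul_of_nonneg_right ?_ (by positivity)
        have h5 : 0 < C2 * E1 := by positivity
        nlinarith
  · have hlT : 0 < Real.log T := Real.log_pos hT
    have hK2' : (2 : ℝ) ≤ K := by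
      have h1 : (1 : ℝ) < K := lt_of_lt_of_le (Real.one_lt_rpow hT hκ) hK1
      have h2 : 1 < K := by exact_mod_cast h1
      exact_mod_cast h2
    have hlK : κ * Real.log T ≤ Real.log K := by
      rw [← Real.log_rpow hT0]
      exact Real.log_le_log (by positivity) hK1
    have hl2K : Real.log 2 ≤ Real.log K := Real.log_le_log (by norm_num) hK2'
    have hlK0 : 0 < Real.log K := lt_of_lt_of_le (by positivity) hlK
    have hx0 : 0 < h ^ 2 * T ^ (-δ) := by positivity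
    obtain ⟨j, hj⟩ : ∃ j : ℕ, j = ⌊Real.log (h ^ 2 * T ^ (-δ)) / Real.log K⌋₊ := ⟨_, rfl⟩
    have hlx : Real.log K ≤ Real.log (h ^ 2 * T ^ (-δ)) :=
      Real.log_le_log (by linarith) hK2
    have hj1 : 1 ≤ j := by
      rw [hj]
      refine Nat.le_floor ?_
      rw [Nat.cast_one, le_div_iff₀ hlK0, one_mul]
      exact hlx
    have hjle : (j : ℝ) ≤ Real.log (h ^ 2 * T ^ (-δ)) / Real.log K := by
      rw [hj]
      exact Nat.floor_le (by
        refine div_nonneg ?_ hlK0.le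
        linarith)
    have hjlt : Real.log (h ^ 2 * T ^ (-δ)) / Real.log K < j + 1 := by
      rw [hj]
      exact Nat.lt_floor_add_one _
    rw [le_div_iff₀ hlK0] at hjle
    rw [div_lt_iff₀ hlK0] at hjlt
    have hKx : (K : ℝ) ^ j ≤ h ^ 2 * T ^ (-δ) := by
      rw [← Real.log_le_log_iff (by positivity) hx0, Real.log_pow]
      exact hjle
    have hxK : h ^ 2 * T ^ (-δ) < (K : ℝ) ^ (j + 1) := by
      rw [← Real.log_lt_log_iff hx0 (by positivity), Real.log_pow]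
      push_cast
      exact hjlt
    have hjJ : j ≤ J := by
      have h1 : (j : ℝ) * Real.log K ≤ (2 + 2 / κ) * Real.log K := by
        calc (j : ℝ) * Real.log K ≤ Real.log (h ^ 2 * T ^ (-δ)) := hjle
          _ ≤ Real.log (4 * T ^ 2) := Real.log_le_log hx0 hx4
          _ = 2 * Real.log 2 + 2 * Real.log T := by
            rw [Real.log_mul (by norm_num) (by positivity), Real.log_pow,
              show (4 : ℝ) = 2 ^ 2 by norm_num, Real.log_pow]
            push_cast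
            ring
          _ ≤ 2 * Real.log K + 2 / κ * Real.log K := by
            have h2 : Real.log T ≤ Real.log K / κ := by
              rw [le_div_iff₀ hκ]
              linarith
            have h3 : 2 / κ * Real.log K = 2 * (Real.log K / κ) := by ring
            rw [h3]
            linarith
          _ = _ := by ring
      have h2 := le_of_mul_le_mul_right h1 hlK0
      exact_mod_cast h2.trans hJ1
    have hja : j * a ≤ δ / 2 := by
      have h1 : (j : ℝ) ≤ J := by exact_mod_cast hjJ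
      calc (j : ℝ) * a ≤ J * a := by gcongr
        _ = δ / 2 := by rw [ha]; field_simp
    -- divisors
    have hDb : ∀ n, 1 ≤ n → n ≤ 2 ^ j * K ^ j → n.divisors.card ≤ ⌊C2 * T ^ (a / 4)⌋₊ := by
      intro n hn1 hn2
      refine Nat.le_floor ((hdiv n hn1).trans ?_)
      rw [hC2, mul_assoc]
      refine mul_le_mul_of_nonneg_left ?_ hC1.le
      have h1 : (n : ℝ) ≤ 2 ^ (J + 2) * T ^ 2 := by
        have h2 : (n : ℝ) ≤ 2 ^ j * (K : ℝ) ^ j := by exact_mod_cast hn2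
        calc (n : ℝ) ≤ 2 ^ j * (K : ℝ) ^ j := h2
          _ ≤ 2 ^ J * (4 * T ^ 2) := by
            have h3 : (2 : ℝ) ^ j ≤ 2 ^ J := pow_le_pow_right₀ (by norm_num) hjJ
            have h4 := hKx.trans hx4
            gcongr
          _ = 2 ^ (J + 2) * T ^ 2 := by rw [pow_add]; ring
      calc (n : ℝ) ^ (a / 8) ≤ (2 ^ (J + 2) * T ^ 2) ^ (a / 8) :=
            Real.rpow_le_rpow (by positivity) h1 (by positivity)
        _ = (2 ^ (J + 2)) ^ (a / 8) * T ^ (a / 4) := by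
            rw [Real.mul_rpow (by positivity) (by positivity)]
            congr 1
            rw [← Real.rpow_natCast, ← Real.rpow_mul hT0.le]
            congr 1
            push_cast
            ring
    have hcj : j ≤ 2 ^ J := hjJ.trans Nat.lt_two_pow_self.le
    have hpow := NB_pow Δ L b K j J _ hj1 hcj hDb
    have hlog : 1 + Real.log D ≤ (1 + 4 / a) * T ^ (a / 4) := by
      have h1 : Real.log D ≤ Real.log T := Real.log_le_log (by linarith) hDT
      have h2 := Real.log_le_rpow_div hT0.le (show 0 < a / 4 by positivity)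
      have h3 : T ^ (a / 4) / (a / 4) = 4 / a * T ^ (a / 4) := by
        field_simp
      have h4 : 1 ≤ T ^ (a / 4) := Real.one_le_rpow hT1 (by positivity)
      rw [h3] at h2
      linarith
    have hlogD : 0 ≤ Real.log D := Real.log_nonneg hD1
    obtain ⟨E, hE⟩ : ∃ E : ℝ, E = E1 * 2 ^ (∑ i, b i) * T ^ (a / 4) := ⟨_, rfl⟩
    have hT4 : 1 ≤ T ^ (a / 4) := Real.one_le_rpow hT1 (by positivity)
    have hEge : 1 ≤ E := by
      rw [hE]
      exact one_le_mul_of_one_le_of_one_le (one_le_mul_of_one_le_of_one_le hE10 hb1) hT4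
    have hsum : ((∑ i ∈ range j, NB Δ L (fun l => b l + J) (2 ^ i * K ^ j) : ℕ) : ℝ) ≤
        (((K : ℝ) ^ j + D) / h) * E := by
      push_cast
      have h1 : ∀ i ∈ range j, (NB Δ L (fun l => b l + J) (2 ^ i * K ^ j) : ℝ) ≤
          2 ^ J * ((Cm + 1) * 2 ^ (k * J) * 2 ^ (∑ i, b i) * ((1 + 4 / a) * T ^ (a / 4))) *
            (((K : ℝ) ^ j + D) / h) := by
        intro i hi
        have h2 := hmeas D Δ L (fun l => b l + J) hD1 hL hsep (2 ^ i * K ^ j)
          (Nat.one_le_iff_ne_zero.2 (by positivity))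
        have h3 : ∑ l : Fin k, (b l + J) = ∑ l, b l + k * J := by
          rw [sum_add_distrib, sum_const, card_univ, Fintype.card_fin, smul_eq_mul]
        rw [h3, ← hh] at h2
        push_cast at h2
        have h4 : (2 : ℝ) ^ i * (K : ℝ) ^ j + D ≤ 2 ^ J * ((K : ℝ) ^ j + D) := by
          have h5 : (2 : ℝ) ^ i ≤ 2 ^ J :=
            pow_le_pow_right₀ (by norm_num) ((mem_range.1 hi).le.trans hjJ)
          have h6 : (1 : ℝ) ≤ 2 ^ J := one_le_pow₀ (by norm_num)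
          have h7 : (0 : ℝ) ≤ (K : ℝ) ^ j := by positivity
          nlinarith
        have h8 : (NB Δ L (fun l => b l + J) (2 ^ i * K ^ j) : ℝ) ≤
            Cm * 2 ^ (∑ l, b l + k * J) * (1 + Real.log D) * (2 ^ i * (K : ℝ) ^ j + D) / h := by
          unfold NB
          convert h2 using 2
        refine h8.trans ?_
        calc Cm * 2 ^ (∑ l, b l + k * J) * (1 + Real.log D) * (2 ^ i * (K : ℝ) ^ j + D) / h
            ≤ (Cm + 1) * 2 ^ (∑ l, b l + k * J) * ((1 + 4 / a) * T ^ (a / 4)) *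
              (2 ^ J * ((K : ℝ) ^ j + D)) / h := by
              have h9 : Cm ≤ Cm + 1 := by linarith
              gcongr
          _ = _ := by
              rw [pow_add]
              ring
      refine (sum_le_sum h1).trans ?_
      rw [sum_const, card_range, nsmul_eq_mul]
      have h10 : (j : ℝ) ≤ J := by exact_mod_cast hjJ
      calc (j : ℝ) * (2 ^ J * ((Cm + 1) * 2 ^ (k * J) * 2 ^ (∑ i, b i) *
            ((1 + 4 / a) * T ^ (a / 4))) * (((K : ℝ) ^ j + D) / h))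
          ≤ (J : ℝ) * (2 ^ J * ((Cm + 1) * 2 ^ (k * J) * 2 ^ (∑ i, b i) *
            ((1 + 4 / a) * T ^ (a / 4))) * (((K : ℝ) ^ j + D) / h)) := by
            refine mul_le_mul_of_nonneg_right h10 (by positivity)
        _ = (((K : ℝ) ^ j + D) / h) * E := by
            rw [hE, hE1]
            ring
    have hmain : (NB Δ L b K : ℝ) ^ j ≤ (((K : ℝ) ^ j + D) / h) *
        (((⌊C2 * T ^ (a / 4)⌋₊ : ℕ) : ℝ) * E) ^ j := by
      have h1 : (((NB Δ L b K) ^ j : ℕ) : ℝ) ≤ ((⌊C2 * T ^ (a / 4)⌋₊ ^ j *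
        ∑ i ∈ range j, NB Δ L (fun l => b l + J) (2 ^ i * K ^ j) : ℕ) : ℝ) := by
        exact_mod_cast hpow
      rw [Nat.cast_mul, Nat.cast_pow, Nat.cast_pow] at h1
      refine h1.trans ?_
      calc ((⌊C2 * T ^ (a / 4)⌋₊ : ℕ) : ℝ) ^ j *
            ((∑ i ∈ range j, NB Δ L (fun l => b l + J) (2 ^ i * K ^ j) : ℕ) : ℝ)
          ≤ ((⌊C2 * T ^ (a / 4)⌋₊ : ℕ) : ℝ) ^ j * ((((K : ℝ) ^ j + D) / h) * E) := by gcongr
        _ ≤ ((⌊C2 * T ^ (a / 4)⌋₊ : ℕ) : ℝ) ^ j * ((((K : ℝ) ^ j + D) / h) * E ^ j) := by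
            have h2 : E ≤ E ^ j := le_self_pow₀ hEge (by omega)
            gcongr
        _ = _ := by rw [mul_pow]; ring
    have hfin := fin_est (C0 := C2 * E1 * 2 ^ (∑ i, b i)) (a := a) hT1 hh1 hD1 hj1
      (by positivity) (by positivity) hDL hδ hKx hxK hKn hja (by
        calc ((⌊C2 * T ^ (a / 4)⌋₊ : ℕ) : ℝ) * E ≤ (C2 * T ^ (a / 4)) * E := by
              have := Nat.floor_le (show 0 ≤ C2 * T ^ (a / 4) by positivity)
              gcongr
          _ = C2 * E1 * 2 ^ (∑ i, b i) * (T ^ (a / 4) * T ^ (a / 4)) := by rw [hE]; ring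
          _ = C2 * E1 * 2 ^ (∑ i, b i) * T ^ (a / 2) := by
              rw [← Real.rpow_add hT0]
              congr 2
              ring) hmain
    refine hfin.trans ?_
    have h5 : 2 * (C2 * E1 * 2 ^ (∑ i, b i)) ≤ (2 * (C2 * E1) + 2) * 2 ^ (∑ i, b i) := by
      nlinarith
    gcongr

theorem boh (hm : S_MEAS) : S_BOH := by
  classical
  intro k δ κ hδ hκ
  obtain ⟨η, C, hη, hC, hbd⟩ := NB_bound hm k δ κ hδ hκ
  refine ⟨η, C * 2 ^ k, hη, by positivity, ?_⟩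
  intro T D Δ L hD1 hDT hL hsep _ hDL K hK1 hK2
  have hT1 : 1 ≤ T := hD1.trans hDT
  have hT0 : 0 < T := by linarith
  obtain ⟨M, hM⟩ : ∃ M : ℕ, ∀ i, L i ≤ 2 ^ M := by
    refine ⟨∑ i, L i, fun i => ?_⟩
    calc L i ≤ 2 ^ (L i) := Nat.lt_two_pow_self.le
      _ ≤ 2 ^ (∑ i, L i) := Nat.pow_le_pow_right (by norm_num)
        (single_le_sum (f := L) (fun _ _ => Nat.zero_le _) (mem_univ i))
  obtain ⟨Lam, hLam⟩ : ∃ Lam : ℝ, Lam = ∏ i, (L i : ℝ) := ⟨_, rfl⟩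
  have hLam0 : 0 ≤ Lam := by rw [hLam]; exact prod_nonneg fun i _ => Nat.cast_nonneg _
  have h1 : ∑ n ∈ Ioc K (2 * K), WF Δ L n ≤ ∑ n ∈ Ioc K (2 * K),
      Lam * ∑ b ∈ Fintype.piFinset fun _ : Fin k => range (M + 1),
        (1 / 4 : ℝ) ^ (∑ i, b i) * (if InB Δ L b n then 1 else 0) := by
    refine sum_le_sum fun n _ => ?_
    rw [hLam]
    convert WF_le Δ L hL hM n
  refine h1.trans ?_
  rw [← mul_sum, sum_comm]
  have h2 : ∀ b ∈ Fintype.piFinset fun _ : Fin k => range (M + 1),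
      ∑ n ∈ Ioc K (2 * K), (1 / 4 : ℝ) ^ (∑ i, b i) * (if InB Δ L b n then 1 else 0) ≤
      (C * (K : ℝ) ^ (1 / 2 : ℝ) * T ^ (-η)) * (1 / 2 : ℝ) ^ (∑ i, b i) := by
    intro b _
    rw [← mul_sum, ← sum_filter, sum_const, nsmul_eq_mul, mul_one]
    have h3 : (((Ioc K (2 * K)).filter (fun n => InB Δ L b n)).card : ℝ) = NB Δ L b K := by
      unfold NB
      congr
    rw [h3]
    calc (1 / 4 : ℝ) ^ (∑ i, b i) * (NB Δ L b K : ℝ)
        ≤ (1 / 4 : ℝ) ^ (∑ i, b i) * (C * 2 ^ (∑ i, b i) * (K : ℝ) ^ (1 / 2 : ℝ) * T ^ (-η)) := by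
          have := hbd T D Δ L hD1 hDT hL hsep hDL K hK1 hK2 b
          gcongr
      _ = (C * (K : ℝ) ^ (1 / 2 : ℝ) * T ^ (-η)) * ((1 / 4 : ℝ) ^ (∑ i, b i) * 2 ^ (∑ i, b i)) := by
          ring
      _ = (C * (K : ℝ) ^ (1 / 2 : ℝ) * T ^ (-η)) * (1 / 2 : ℝ) ^ (∑ i, b i) := by
          rw [← mul_pow]
          norm_num
  have h4 : ∑ b ∈ Fintype.piFinset fun _ : Fin k => range (M + 1),
      (1 / 2 : ℝ) ^ (∑ i, b i) ≤ 2 ^ k := by
    have h5 : ∑ b ∈ Fintype.piFinset fun _ : Fin k => range (M + 1), (1 / 2 : ℝ) ^ (∑ i, b i) =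
        ∏ _i : Fin k, ∑ m ∈ range (M + 1), (1 / 2 : ℝ) ^ m := by
      rw [prod_univ_sum]
      refine sum_congr rfl fun b _ => ?_
      rw [prod_pow_eq_pow_sum]
    rw [h5, prod_const, card_univ, Fintype.card_fin]
    refine pow_le_pow_left₀ (sum_nonneg fun _ _ => by positivity) ?_ k
    have h6 := Summable.sum_le_tsum (range (M + 1)) (fun i _ => by positivity)
      (summable_geometric_of_lt_one (r := (1 / 2 : ℝ)) (by norm_num) (by norm_num))
    refine h6.trans ?_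
    rw [tsum_geometric_of_lt_one (by norm_num) (by norm_num)]
    norm_num
  calc Lam * ∑ b ∈ Fintype.piFinset fun _ : Fin k => range (M + 1),
        ∑ n ∈ Ioc K (2 * K), (1 / 4 : ℝ) ^ (∑ i, b i) * (if InB Δ L b n then 1 else 0)
      ≤ Lam * ∑ b ∈ Fintype.piFinset fun _ : Fin k => range (M + 1),
        (C * (K : ℝ) ^ (1 / 2 : ℝ) * T ^ (-η)) * (1 / 2 : ℝ) ^ (∑ i, b i) :=
        mul_le_mul_of_nonneg_left (sum_le_sum h2) hLam0
    _ ≤ Lam * ((C * (K : ℝ) ^ (1 / 2 : ℝ) * T ^ (-η)) * 2 ^ k) := by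
        rw [← mul_sum]
        gcongr
    _ = C * 2 ^ k * (∏ i, (L i : ℝ)) * (K : ℝ) ^ (1 / 2 : ℝ) * T ^ (-η) := by
        rw [← hLam]
        ring

end Pool.Agent.Y275.R9
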